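import Mathlib

/-!
# The periods of a lattice are bounded below in terms of its invariants
-/

set_option autoImplicit false

namespace Pool.Agent.N365.SM

open Set Filter Topology PeriodPair

/-- an inequality for the cubic -/
theorem cubic_le {g2 g3 x : ℂ} {R : ℝ} (hR : 0 < R) (h2 : ‖g2‖ ≤ R ^ 4) (h3 : ‖g3‖ ≤ R ^ 6)
    (hx : R ^ 2 ≤ ‖x‖) : ‖4 * x ^ 3 - g2 * x - g3‖ ≤ 6 * ‖x‖ ^ 3 := by
  have h0 : 0 ≤ ‖x‖ := norm_nonneg x
  have e1 : ‖4 * x ^ 3 - g2 * x - g3‖ ≤ 4 * ‖x‖ ^ 3 + ‖g2‖ * ‖x‖ + ‖g3‖ := by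
    refine (norm_sub_le _ _).trans (add_le_add ((norm_sub_le _ _).trans (le_of_eq ?_)) le_rfl)
    rw [norm_mul, norm_mul, norm_pow]
    norm_num
  have e2 : R ^ 4 ≤ ‖x‖ ^ 2 := by
    calc R ^ 4 = (R ^ 2) ^ 2 := by ring
      _ ≤ _ := pow_le_pow_left₀ (by positivity) hx 2
  have e3 : R ^ 6 ≤ ‖x‖ ^ 3 := by
    calc R ^ 6 = (R ^ 2) ^ 3 := by ring
      _ ≤ _ := pow_le_pow_left₀ (by positivity) hx 3
  have e4 : ‖g2‖ * ‖x‖ ≤ ‖x‖ ^ 3 := by
    calc ‖g2‖ * ‖x‖ ≤ ‖x‖ ^ 2 * ‖x‖ := mul_le_mul_of_nonneg_right (h2.trans e2) h0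
      _ = _ := by ring
  linarith

/-- a root of the cubic is small -/
theorem root_le {g2 g3 x : ℂ} {R : ℝ} (hR : 0 < R) (h2 : ‖g2‖ ≤ R ^ 4) (h3 : ‖g3‖ ≤ R ^ 6)
    (hx : 4 * x ^ 3 - g2 * x - g3 = 0) : ‖x‖ ≤ R ^ 2 := by
  by_contra hcon
  push Not at hcon
  have h0 : 0 < ‖x‖ := lt_trans (by positivity) hcon
  have e1 : 4 * ‖x‖ ^ 3 ≤ ‖g2‖ * ‖x‖ + ‖g3‖ := by
    have e : 4 * x ^ 3 = g2 * x + g3 := by linear_combination hx
    have e' : ‖4 * x ^ 3‖ ≤ ‖g2‖ * ‖x‖ + ‖g3‖ := by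
      rw [e]
      refine (norm_add_le _ _).trans ?_
      rw [norm_mul]
    rw [norm_mul, norm_pow] at e'
    norm_num at e'
    exact e'
  have e2 : R ^ 4 ≤ ‖x‖ ^ 2 := by
    calc R ^ 4 = (R ^ 2) ^ 2 := by ring
      _ ≤ _ := pow_le_pow_left₀ (by positivity) hcon.le 2
  have e3 : R ^ 6 ≤ ‖x‖ ^ 3 := by
    calc R ^ 6 = (R ^ 2) ^ 3 := by ring
      _ ≤ _ := pow_le_pow_left₀ (by positivity) hcon.le 3
  have e4 : ‖g2‖ * ‖x‖ ≤ ‖x‖ ^ 3 := by
    calc ‖g2‖ * ‖x‖ ≤ ‖x‖ ^ 2 * ‖x‖ := mul_le_mul_of_nonneg_right (h2.trans e2) h0.le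
      _ = _ := by ring
  have h4 : 0 < ‖x‖ ^ 3 := by positivity
  linarith

variable (L : PeriodPair)

theorem except_eq {z : ℂ} (hz : z ≠ 0) :
    z ^ 2 * ℘[L - (0 : ℂ)] z + 1 = z ^ 2 * ℘[L] z := by
  have h := L.ite_eq_one_sub_sq_mul_weierstrassP 0 (zero_mem _) z
  rw [if_neg hz] at h
  simp only [sub_zero] at h
  rw [h]
  simp

/-- the value of the derivative at a half period -/
theorem deriv_half {w : ℂ} (hw : w ∈ L.lattice) : ℘'[L] (w / 2) = 0 := by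
  have h1 := L.derivWeierstrassP_add_coe (-(w / 2)) ⟨w, hw⟩
  have h2 := L.derivWeierstrassP_neg (w / 2)
  have h3 : -(w / 2) + w = w / 2 := by ring
  simp only [h3] at h1
  rw [h2] at h1
  have h4 : (2 : ℂ) * ℘'[L] (w / 2) = 0 := by linear_combination h1
  exact (mul_eq_zero.mp h4).resolve_left two_ne_zero

theorem shortest_ge {ω : ℂ} (hω : ω ∈ L.lattice) (h0 : ω ≠ 0)
    (hmin : ∀ l ∈ L.lattice, l ≠ 0 → ‖ω‖ ≤ ‖l‖) {R : ℝ} (hR : 0 < R) (h2 : ‖L.g₂‖ ≤ R ^ 4)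
    (h3 : ‖L.g₃‖ ≤ R ^ 6) : 2 ≤ 3 * (R * ‖ω‖) := by
  by_contra hcon
  push Not at hcon
  have hω0 : 0 < ‖ω‖ := norm_pos_iff.mpr h0
  -- points on the segment
  have hnot : ∀ t : ℝ, 0 < t → t ≤ 1 / 2 → (t : ℂ) * ω ∉ L.lattice := by
    intro t ht0 ht1 hmem
    have h4 := hmin _ hmem (mul_ne_zero (by exact_mod_cast ht0.ne') h0)
    rw [norm_mul, Complex.norm_real, Real.norm_eq_abs, abs_of_pos ht0] at h4
    nlinarith
  obtain ⟨H, hH⟩ : ∃ H : ℝ → ℂ, H = fun t : ℝ =>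
      ((t : ℂ) * ω) ^ 2 * ℘[L - (0 : ℂ)] ((t : ℂ) * ω) + 1 := ⟨_, rfl⟩
  have hdiffP : ∀ t : ℝ, 0 ≤ t → t ≤ 1 / 2 → DifferentiableAt ℂ ℘[L - (0 : ℂ)] ((t : ℂ) * ω) := by
    intro t ht0 ht1
    refine (L.differentiableOn_weierstrassPExcept 0).differentiableAt ?_
    refine L.isOpen_compl_lattice_sdiff.mem_nhds ?_
    rintro ⟨h5, h6⟩
    rcases ht0.eq_or_lt with h7 | h7
    · apply h6
      rw [← h7]
      simp
    · exact hnot t h7 ht1 h5
  have hlin : ∀ t : ℝ, HasDerivAt (fun t : ℝ => (t : ℂ) * ω) ω t := by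
    intro t
    simpa using (Complex.ofRealCLM.hasDerivAt (x := t)).mul_const ω
  have hHd : ∀ t : ℝ, 0 ≤ t → t ≤ 1 / 2 → DifferentiableAt ℝ H t := by
    intro t ht0 ht1
    rw [hH]
    have h5 : HasDerivAt (fun t : ℝ => ℘[L - (0 : ℂ)] ((t : ℂ) * ω))
        (deriv ℘[L - (0 : ℂ)] ((t : ℂ) * ω) * ω) t :=
      (hdiffP t ht0 ht1).hasDerivAt.comp_of_eq t (hlin t) rfl |>.congr_deriv (by ring)
    exact ((((hlin t).pow 2).mul h5).add_const 1).differentiableAt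
  have hHc : ContinuousOn H (Icc 0 (1 / 2)) := fun t ht =>
    (hHd t ht.1 ht.2).continuousAt.continuousWithinAt
  have hH0 : H 0 = 1 := by rw [hH]; simp
  have hHP : ∀ t : ℝ, 0 < t → H t = ((t : ℂ) * ω) ^ 2 * ℘[L] ((t : ℂ) * ω) := by
    intro t ht
    rw [hH]
    exact except_eq L (mul_ne_zero (by exact_mod_cast ht.ne') h0)
  obtain ⟨S, hS⟩ : ∃ S : Set ℝ, S = {t | t ∈ Icc (0 : ℝ) (1 / 2) ∧
    ‖H t‖ ≤ R ^ 2 * (t * ‖ω‖) ^ 2} := ⟨_, rfl⟩
  have hSemp : S = ∅ := by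
    by_contra hne
    have hne' : S.Nonempty := nonempty_iff_ne_empty.mpr hne
    have hSc : IsCompact S := by
      have h5 : IsClosed S := by
        have h6 : S = Icc (0 : ℝ) (1 / 2) ∩ (fun t => ‖H t‖ - R ^ 2 * (t * ‖ω‖) ^ 2) ⁻¹' Iic 0 := by
          rw [hS]
          ext t
          simp only [mem_ofPred_eq, mem_inter_iff, mem_preimage, mem_Iic, sub_nonpos]
        rw [h6]
        refine ContinuousOn.preimage_isClosed_of_isClosed ?_ isClosed_Icc isClosed_Iic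
        refine hHc.norm.sub ?_
        fun_prop
      refine (isCompact_Icc (a := (0 : ℝ)) (b := 1 / 2)).of_isClosed_subset h5 ?_
      rw [hS]
      exact fun t ht => ht.1
    obtain ⟨T, hT, hTm⟩ := hSc.exists_isLeast hne'
    have hTS := hT
    rw [hS] at hTS
    obtain ⟨⟨hT0, hT1⟩, hT2⟩ := hTS
    have hTpos : 0 < T := by
      rcases hT0.eq_or_lt with h5 | h5
      · rw [← h5, hH0, norm_one, zero_mul] at hT2
        norm_num at hT2
      · exact h5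
    have hbefore : ∀ t : ℝ, 0 ≤ t → t < T → R ^ 2 * (t * ‖ω‖) ^ 2 < ‖H t‖ := by
      intro t ht0 htT
      by_contra h6
      push Not at h6
      have h7 : t ∈ S := by
        rw [hS]
        exact ⟨⟨ht0, by linarith⟩, h6⟩
      exact absurd (hTm h7) (not_le.mpr htT)
    have hat : R ^ 2 * (T * ‖ω‖) ^ 2 ≤ ‖H T‖ := by
      have h6 : Tendsto (fun t : ℝ => ‖H t‖ - R ^ 2 * (t * ‖ω‖) ^ 2) (𝓝[<] T)
          (𝓝 (‖H T‖ - R ^ 2 * (T * ‖ω‖) ^ 2)) := by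
        refine (((hHd T hT0 hT1).continuousAt.norm).sub ?_).tendsto.mono_left nhdsWithin_le_nhds
        fun_prop
      have h7 : 0 ≤ ‖H T‖ - R ^ 2 * (T * ‖ω‖) ^ 2 := by
        refine ge_of_tendsto h6 ?_
        filter_upwards [Ioo_mem_nhdsLT hTpos] with t ht
        have := hbefore t ht.1.le ht.2
        linarith
      linarith
    have hge : ∀ t : ℝ, 0 ≤ t → t ≤ T → R ^ 2 * (t * ‖ω‖) ^ 2 ≤ ‖H t‖ ∧ H t ≠ 0 := by
      intro t ht0 htT
      rcases htT.eq_or_lt with h6 | h6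
      · subst h6
        refine ⟨hat, ?_⟩
        have : 0 < ‖H t‖ := lt_of_lt_of_le (by positivity) hat
        exact norm_pos_iff.mp this
      · have h7 := hbefore t ht0 h6
        exact ⟨h7.le, norm_pos_iff.mp (lt_of_le_of_lt (by positivity) h7)⟩
    -- the function `1 / ℘`
    obtain ⟨G, hG⟩ : ∃ G : ℝ → ℂ, G = fun t : ℝ => ((t : ℂ) * ω) ^ 2 / H t := ⟨_, rfl⟩
    have hGd : ∀ t : ℝ, 0 ≤ t → t ≤ T → DifferentiableAt ℝ G t := by
      intro t ht0 htT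
      rw [hG]
      exact ((hlin t).pow 2).differentiableAt.div (hHd t ht0 (htT.trans hT1)) (hge t ht0 htT).2
    have hbound : ∀ t ∈ Ico (0 : ℝ) T, ‖deriv G t‖ ≤ 5 / 2 * (‖ω‖ / R) := by
      intro t ht
      rcases ht.1.eq_or_lt with h6 | h6
      · have h7 : HasDerivAt G 0 t := by
          rw [hG]
          have h8 := (((hlin t).pow 2).div (hHd t ht.1 (by linarith [ht.2])).hasDerivAt
            (hge t ht.1 ht.2.le).2)
          refine h8.congr_deriv ?_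
          rw [← h6]
          simp
        rw [h7.deriv, norm_zero]
        positivity
      · have hz : (t : ℂ) * ω ∉ L.lattice := hnot t h6 (by linarith [ht.2])
        have hz0 : (t : ℂ) * ω ≠ 0 := mul_ne_zero (by exact_mod_cast h6.ne') h0
        have hPne : ℘[L] ((t : ℂ) * ω) ≠ 0 := by
          intro h7
          have h8 := (hge t ht.1 ht.2.le).2
          rw [hHP t h6, h7, mul_zero] at h8
          exact h8 rfl
        have hPge : R ^ 2 ≤ ‖℘[L] ((t : ℂ) * ω)‖ := by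
          have h8 := (hge t ht.1 ht.2.le).1
          rw [hHP t h6, norm_mul, norm_pow, norm_mul, Complex.norm_real, Real.norm_eq_abs,
            abs_of_pos h6, mul_comm] at h8
          exact le_of_mul_le_mul_left h8 (by positivity)
        have hev : G =ᶠ[𝓝 t] fun s : ℝ => (℘[L] ((s : ℂ) * ω))⁻¹ := by
          filter_upwards [Ioi_mem_nhds h6] with s hs
          have hs' : (0 : ℝ) < s := hs
          have hs0 : (s : ℂ) * ω ≠ 0 := mul_ne_zero (by exact_mod_cast hs'.ne') h0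
          rw [hG]
          simp only
          rw [hHP s hs']
          rw [div_eq_mul_inv, mul_inv, ← mul_assoc, mul_inv_cancel₀ (pow_ne_zero 2 hs0), one_mul]
        have hd : HasDerivAt (fun s : ℝ => (℘[L] ((s : ℂ) * ω))⁻¹)
            (-(℘'[L] ((t : ℂ) * ω) * ω) / (℘[L] ((t : ℂ) * ω)) ^ 2) t := by
          have h9 : HasDerivAt ℘[L] (℘'[L] ((t : ℂ) * ω)) ((t : ℂ) * ω) := by
            have := ((L.differentiableOn_weierstrassP).differentiableAt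
              (L.isClosed_lattice.isOpen_compl.mem_nhds hz)).hasDerivAt
            rwa [L.deriv_weierstrassP] at this
          have h10 : HasDerivAt (fun s : ℝ => ℘[L] ((s : ℂ) * ω)) (℘'[L] ((t : ℂ) * ω) * ω) t :=
            h9.comp_of_eq t (hlin t) rfl |>.congr_deriv (by ring)
          exact h10.inv hPne
        rw [hev.deriv_eq, hd.deriv, norm_div, norm_neg, norm_mul, norm_pow]
        have hsq : ‖℘'[L] ((t : ℂ) * ω)‖ ^ 2 ≤ 6 * ‖℘[L] ((t : ℂ) * ω)‖ ^ 3 := by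
          rw [← norm_pow, L.derivWeierstrassP_sq _ hz]
          exact cubic_le hR h2 h3 hPge
        obtain ⟨P, hP⟩ : ∃ P : ℝ, P = ‖℘[L] ((t : ℂ) * ω)‖ := ⟨_, rfl⟩
        obtain ⟨Q, hQ⟩ : ∃ Q : ℝ, Q = ‖℘'[L] ((t : ℂ) * ω)‖ := ⟨_, rfl⟩
        rw [← hP] at hsq hPge ⊢
        rw [← hQ] at hsq ⊢
        have hP0 : 0 < P := lt_of_lt_of_le (by positivity) hPge
        have hQ0 : 0 ≤ Q := by rw [hQ]; exact norm_nonneg _
        rw [div_le_iff₀ (by positivity)]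
        have hkey : Q ≤ 5 / 2 * P ^ 2 / R := by
          rw [le_div_iff₀ hR]
          refine (sq_le_sq₀ (by positivity) (by positivity)).mp ?_
          nlinarith [pow_pos hP0 3, mul_le_mul_of_nonneg_left hPge (pow_pos hP0 3).le,
            mul_le_mul_of_nonneg_right hsq (sq_nonneg R)]
        calc Q * ‖ω‖ ≤ 5 / 2 * P ^ 2 / R * ‖ω‖ := mul_le_mul_of_nonneg_right hkey hω0.le
          _ = 5 / 2 * (‖ω‖ / R) * P ^ 2 := by ring
    have hmv := norm_image_sub_le_of_norm_deriv_right_le_segment (f := G) (f' := deriv G)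
      (a := 0) (b := T) (C := 5 / 2 * (‖ω‖ / R))
      (fun t ht => (hGd t ht.1 ht.2).continuousAt.continuousWithinAt)
      (fun t ht => (hGd t ht.1 ht.2.le).hasDerivAt.hasDerivWithinAt) hbound T ⟨hT0, le_rfl⟩
    have hG0 : G 0 = 0 := by rw [hG]; simp
    rw [hG0, sub_zero, sub_zero] at hmv
    have hGT : ‖G T‖ = 1 / R ^ 2 := by
      rw [hG]
      simp only
      have h8 : ‖H T‖ = R ^ 2 * (T * ‖ω‖) ^ 2 := le_antisymm hT2 hat
      rw [norm_div, h8, norm_pow, norm_mul, Complex.norm_real, Real.norm_eq_abs, abs_of_pos hTpos]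
      field_simp
    rw [hGT, div_le_iff₀ (by positivity)] at hmv
    have h9 : 5 / 2 * (‖ω‖ / R) * T * R ^ 2 = 5 / 2 * (R * ‖ω‖) * T := by
      field_simp
    rw [h9] at hmv
    have h10 : 5 / 2 * (R * ‖ω‖) * T ≤ 5 / 2 * (R * ‖ω‖) * (1 / 2) :=
      mul_le_mul_of_nonneg_left hT1 (by positivity)
    linarith
  -- the half period
  have hhalf : (((1 / 2 : ℝ) : ℂ)) * ω = ω / 2 := by push_cast; ring
  have hz := hnot (1 / 2) (by norm_num) le_rfl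
  rw [hhalf] at hz
  have hlt : R ^ 2 < ‖℘[L] (ω / 2)‖ := by
    have h5 : (1 / 2 : ℝ) ∉ S := by rw [hSemp]; exact notMem_empty _
    rw [hS] at h5
    have h6 : R ^ 2 * ((1 / 2 : ℝ) * ‖ω‖) ^ 2 < ‖H (1 / 2)‖ := by
      by_contra h7
      exact h5 ⟨⟨by norm_num, le_rfl⟩, not_lt.mp h7⟩
    rw [hHP (1 / 2) (by norm_num), norm_mul, norm_pow, norm_mul, Complex.norm_real,
      Real.norm_eq_abs, abs_of_pos (by norm_num : (0 : ℝ) < 1 / 2), hhalf, mul_comm] at h6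
    exact lt_of_mul_lt_mul_left h6 (by positivity)
  have heq := L.derivWeierstrassP_sq _ hz
  rw [deriv_half L hω] at heq
  have := root_le hR h2 h3 (x := ℘[L] (ω / 2)) (by rw [← heq]; ring)
  linarith

/-- **the periods are bounded below** -/
theorem period_ge {R : ℝ} (hR : 0 < R) (h2 : ‖L.g₂‖ ≤ R ^ 4) (h3 : ‖L.g₃‖ ≤ R ^ 6) {l : ℂ}
    (hl : l ∈ L.lattice) (hl0 : l ≠ 0) : 2 / (3 * R) ≤ ‖l‖ := by
  have hfin : {x : L.lattice | x ≠ 0 ∧ ‖(x : ℂ)‖ ≤ ‖l‖}.Finite := by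
    have h : (Metric.closedBall (0 : L.lattice) ‖l‖).Finite :=
      isCompact_iff_finite.mp (isCompact_closedBall (0 : L.lattice) ‖l‖)
    refine h.subset fun x hx => ?_
    rw [Metric.mem_closedBall, dist_zero_right]
    exact hx.2
  obtain ⟨w, hw, hwm⟩ := Set.exists_min_image _ (fun x : L.lattice => ‖(x : ℂ)‖) hfin
    ⟨⟨l, hl⟩, fun h => hl0 (congrArg Subtype.val h), le_rfl⟩
  have hwm' : ∀ x ∈ L.lattice, x ≠ 0 → ‖(w : ℂ)‖ ≤ ‖x‖ := by
    intro x hx hx0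
    rcases le_total ‖x‖ ‖l‖ with h | h
    · exact hwm ⟨x, hx⟩ ⟨fun h' => hx0 (congrArg Subtype.val h'), h⟩
    · exact hw.2.trans h
  have hw0 : (w : ℂ) ≠ 0 := fun h => hw.1 (Subtype.ext h)
  have := shortest_ge L w.2 hw0 hwm' hR h2 h3
  rw [div_le_iff₀ (by positivity)]
  have h5 : R * ‖(w : ℂ)‖ ≤ R * ‖l‖ := mul_le_mul_of_nonneg_left (hwm' l hl hl0) hR.le
  linarith

end Pool.Agent.N365.SM
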