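import Pool.Agent.TH133.SH.Main

/-!
# A polynomial bound for the Shimura map
-/

set_option autoImplicit false

namespace Pool.Agent.N365.SM

open Pool.Agent.TH133.SH Finset

/-- the coefficients satisfy the Euler product and the trivial bounds at the primes -/
structure Eul (N : ℕ) (a : ℕ → ℤ) : Prop where
  zero : a 0 = 0
  one : a 1 = 1
  tr : ∀ p : ℕ, p.Prime → |a p| ≤ p
  mul : ∀ p : ℕ, p.Prime → ∀ n : ℕ, a (p * n) = a p * a n ∨
    (p ∣ n ∧ a (p * n) + (p : ℤ) * a (n / p) = a p * a n)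

theorem Eul.bound {N : ℕ} {a : ℕ → ℤ} (h : Eul N a) (n : ℕ) : |a n| ≤ (n : ℤ) ^ 2 := by
  induction n using Nat.strong_induction_on with
  | _ n ih =>
    rcases Nat.eq_zero_or_pos n with h0 | h0
    · subst h0
      rw [h.zero]
      simp
    rcases eq_or_ne n 1 with h1 | h1
    · subst h1
      rw [h.one]
      simp
    obtain ⟨p, hp, m, rfl⟩ : ∃ p : ℕ, p.Prime ∧ ∃ m, n = p * m := by
      obtain ⟨p, hp, hd⟩ := Nat.exists_prime_and_dvd h1
      obtain ⟨m, hm⟩ := hd
      exact ⟨p, hp, m, hm⟩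
    have hm0 : 0 < m := Nat.pos_of_mul_pos_left h0 |> fun h => by
      rcases Nat.eq_zero_or_pos m with h' | h'
      · rw [h', mul_zero] at h0; omega
      · exact h'
    have h2 := hp.two_le
    have h2' : (2 : ℤ) ≤ p := by exact_mod_cast h2
    have hm' : (0 : ℤ) < m := by exact_mod_cast hm0
    have im := ih m (by nlinarith)
    have hap := h.tr p hp
    have hprod : |a p * a m| ≤ p * (m : ℤ) ^ 2 := by
      rw [abs_mul]
      exact mul_le_mul hap im (abs_nonneg _) (by positivity)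
    rcases h.mul p hp m with h3 | ⟨⟨k, hk⟩, h3⟩
    · rw [h3]
      refine hprod.trans ?_
      push_cast
      nlinarith [sq_nonneg (m : ℤ)]
    · have hk' : m / p = k := by rw [hk]; exact Nat.mul_div_cancel_left k hp.pos
      rw [hk'] at h3
      have hk0 : 0 < k := by
        rcases Nat.eq_zero_or_pos k with h' | h'
        · rw [h', mul_zero] at hk; omega
        · exact h'
      have ik := ih k (by rw [hk]; nlinarith [Nat.mul_pos hp.pos hk0])
      have e : a (p * m) = a p * a m - p * a k := by linarith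
      rw [e]
      have h4 : |a p * a m - p * a k| ≤ p * (m : ℤ) ^ 2 + p * (k : ℤ) ^ 2 := by
        refine (abs_sub _ _).trans (add_le_add hprod ?_)
        rw [abs_mul, abs_of_nonneg (by positivity : (0 : ℤ) ≤ p)]
        exact mul_le_mul_of_nonneg_left ik (by positivity)
      refine h4.trans ?_
      have hmk : (m : ℤ) = p * k := by exact_mod_cast hk
      push_cast
      rw [hmk]
      have hk'' : (1 : ℤ) ≤ (k : ℤ) ^ 2 := by
        have : (1 : ℤ) ≤ k := by exact_mod_cast hk0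
        nlinarith
      have h5 : (p : ℤ) * p ^ 2 + p ≤ p ^ 4 := by nlinarith [sq_nonneg ((p : ℤ) ^ 2), mul_self_nonneg ((p : ℤ) - 2)]
      nlinarith

theorem Eul.bound' {N : ℕ} {a : ℕ → ℤ} (h : Eul N a) (n : ℕ) : ‖(a n : ℂ) / (n : ℂ)‖ ≤ n := by
  rcases Nat.eq_zero_or_pos n with h0 | h0
  · subst h0
    simp
  rw [norm_div, Complex.norm_natCast, Complex.norm_intCast, div_le_iff₀ (by exact_mod_cast h0)]
  have h1 := h.bound n
  have h2 : |(a n : ℝ)| ≤ (n : ℝ) ^ 2 := by exact_mod_cast h1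
  linarith [sq (n : ℝ)]

theorem F_le {N : ℕ} {a : ℕ → ℤ} (h : Eul N a) {τ : ℂ} (h0 : 0 < τ.im) (h1 : τ.im ≤ 1) :
    ‖Fser a τ‖ ≤ 2 / τ.im ^ 2 := by
  obtain ⟨x, hx⟩ : ∃ x : ℝ, x = Real.exp (-(2 * Real.pi * τ.im)) := ⟨_, rfl⟩
  have hpi := Real.pi_gt_three
  have hx0 : 0 < x := by rw [hx]; exact Real.exp_pos _
  have hx1 : 6 * τ.im / 7 ≤ 1 - x := by
    have h2 : x * (1 + 6 * τ.im) ≤ 1 := by
      have h3 : 1 + 6 * τ.im ≤ Real.exp (2 * Real.pi * τ.im) := by
        have := Real.add_one_le_exp (2 * Real.pi * τ.im)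
        nlinarith
      calc x * (1 + 6 * τ.im) ≤ x * Real.exp (2 * Real.pi * τ.im) :=
            mul_le_mul_of_nonneg_left h3 hx0.le
        _ = 1 := by rw [hx, ← Real.exp_add]; simp
    nlinarith
  have hxlt : x < 1 := by nlinarith
  have hnx : ‖x‖ < 1 := by rw [Real.norm_eq_abs, abs_of_pos hx0]; exact hxlt
  have hs : HasSum (fun n : ℕ => (n : ℝ) * x ^ n) (x / (1 - x) ^ 2) :=
    hasSum_coe_mul_geometric_of_norm_lt_one hnx
  have hterm : ∀ n : ℕ, ‖(a n : ℂ) / (n : ℂ) *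
      Complex.exp (2 * (Real.pi : ℂ) * Complex.I * (n : ℂ) * τ)‖ ≤ (n : ℝ) * x ^ n := by
    intro n
    rw [norm_mul]
    refine mul_le_mul (h.bound' n) (le_of_eq ?_) (norm_nonneg _) (Nat.cast_nonneg _)
    rw [Complex.norm_exp, hx, ← Real.exp_nat_mul]
    congr 1
    simp [Complex.mul_re, Complex.mul_im]
    ring
  unfold Fser
  refine (tsum_of_norm_bounded hs hterm).trans ?_
  have h3 : 0 < 1 - x := by linarith
  rw [div_le_div_iff₀ (by positivity) (by positivity)]
  have h4 : (6 * τ.im / 7) ^ 2 ≤ (1 - x) ^ 2 := pow_le_pow_left₀ (by positivity) hx1 2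
  nlinarith [mul_pos h0 h0]

/-- the bound for the Shimura map -/
theorem H_le {N : ℕ} {a : ℕ → ℤ} (ha : IsForm N a) (h : Eul N a) {g : Matrix.SpecialLinearGroup (Fin 2) ℤ}
    (hg : InG N g) : ‖Hs a g‖ ≤ 4 * ((g 1 0 : ℤ) : ℝ) ^ 2 := by
  by_cases hr : g 1 0 = 0
  · have h2 := (isCuspHom ha Complex.reLm).zero_of_lower (g := g) hr
    have h3 := (isCuspHom ha Complex.imLm).zero_of_lower (g := g) hr
    have h1 : Hs a g = 0 := Complex.ext h2 h3
    rw [h1, norm_zero]
    positivity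
  obtain ⟨r, hr'⟩ : ∃ r : ℝ, r = ((g 1 0 : ℤ) : ℝ) := ⟨_, rfl⟩
  obtain ⟨s, hs'⟩ : ∃ s : ℝ, s = ((g 1 1 : ℤ) : ℝ) := ⟨_, rfl⟩
  have hr0 : r ≠ 0 := by rw [hr']; exact_mod_cast hr
  have hrabs : 1 ≤ |r| := by rw [hr']; exact_mod_cast Int.one_le_abs hr
  obtain ⟨τ, hτ⟩ : ∃ τ : ℂ, τ = ⟨-s / r, 1 / |r|⟩ := ⟨_, rfl⟩
  have him : τ.im = 1 / |r| := by rw [hτ]
  have hpos : 0 < τ.im := by rw [him]; positivity
  have hle : τ.im ≤ 1 := by
    rw [him, div_le_one (by linarith)]
    exact hrabs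
  have hden : ‖(r : ℂ) * τ + (s : ℂ)‖ = 1 := by
    have e : (r : ℂ) * τ + (s : ℂ) = ((r / |r| : ℝ) : ℂ) * Complex.I := by
      apply Complex.ext
      · rw [hτ]
        simp
        field_simp
        ring
      · rw [hτ]
        simp
        field_simp
    rw [e, norm_mul, Complex.norm_I, mul_one, Complex.norm_real, norm_div, Real.norm_eq_abs,
      Real.norm_eq_abs, abs_abs, div_self (by linarith)]
  have him2 : (act g τ).im = 1 / |r| := by
    unfold act
    rw [im_mob (det_real g) hpos, ← hr', ← hs', hden, him]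
    simp
  have e1 := diff_eq ha hg hpos
  rw [← e1]
  have b1 := F_le h hpos hle
  have b2 := F_le h (τ := act g τ) (by rw [him2]; positivity) (by rw [him2, ← him]; exact hle)
  rw [him] at b1
  rw [him2] at b2
  have e2 : 2 / (1 / |r|) ^ 2 = 2 * r ^ 2 := by
    rw [div_pow, one_pow, sq_abs]
    field_simp
  rw [e2] at b1 b2
  rw [← hr']
  refine (norm_sub_le _ _).trans ?_
  linarith

end Pool.Agent.N365.SM
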