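import Pool.Agent.N365.SM.A
import Pool.Agent.N365.SM.B

/-!
# The coordinates in the lattice of the Shimura map
-/

set_option autoImplicit false

namespace Pool.Agent.N365.SM

open Pool.Agent.TH133.SH Complex

theorem Fser_conj (a : ℕ → ℤ) (τ : ℂ) :
    Fser a (-(starRingEnd ℂ) τ) = (starRingEnd ℂ) (Fser a τ) := by
  unfold Fser
  rw [Complex.conj_tsum]
  refine tsum_congr fun k => ?_
  rw [map_mul, map_div₀, Complex.conj_natCast, ← Complex.exp_conj]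
  congr 1
  · congr 1
    exact (map_intCast (starRingEnd ℂ) (a k)).symm
  · congr 1
    simp only [map_mul, Complex.conj_I, Complex.conj_ofReal, Complex.conj_natCast, map_ofNat]
    ring

/-- the conjugate of a value of the Shimura map -/
theorem Hval_conj (a : ℕ → ℤ) (p q r s : ℤ) :
    Hval a p (-q) (-r) s = (starRingEnd ℂ) (Hval a p q r s) := by
  unfold Hval
  rw [map_sub, ← Fser_conj, ← Fser_conj]
  congr 2
  · rw [map_div₀, map_add, map_add, map_mul, map_mul, Complex.conj_I]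
    simp only [map_intCast]
    rw [← neg_div]
    have e1 : ((p : ℂ) * I + ((-q : ℤ) : ℂ)) = -((p : ℂ) * -I + (q : ℂ)) := by push_cast; ring
    have e2 : (((-r : ℤ) : ℂ) * I + (s : ℂ)) = ((r : ℂ) * -I + (s : ℂ)) := by push_cast; ring
    rw [e1, e2]
  · rw [Complex.conj_I, neg_neg]

section
variable {N : ℕ} {a : ℕ → ℤ} {Ω₁ Ω₂ : ℂ}

/-- the lattice of the Shimura map is contained, up to the factor `ρ`, in a lattice whose nonzero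
elements are bounded below -/
structure Sep (N : ℕ) (a : ℕ → ℤ) (ρ v : ℝ) : Prop where
  hρ : 0 < ρ
  hv : 0 < v
  sep : ∀ z w : ℂ, (∃ p q r s : ℤ, p * s - q * r = 1 ∧ (N : ℤ) ∣ r ∧ z = Hval a p q r s) →
    (∃ p q r s : ℤ, p * s - q * r = 1 ∧ (N : ℤ) ∣ r ∧ w = Hval a p q r s) → z ≠ w →
      v ≤ ρ * ‖z - w‖

theorem Sep.basis {ρ v : ℝ} (h : Sep N a ρ v) (hb : IsBasis N a Ω₁ Ω₂) :
    v ≤ ρ * Ω₁.re ∧ v ≤ 2 * ρ * Ω₂.im := by
  have hzero : ∃ p q r s : ℤ, p * s - q * r = 1 ∧ (N : ℤ) ∣ r ∧ (0 : ℂ) = Hval a p q r s := by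
    refine ⟨1, 0, 0, 1, by norm_num, dvd_zero _, ?_⟩
    unfold Hval
    simp
  constructor
  · have hne : Ω₁ ≠ 0 := by
      intro h0
      have := hb.re₁
      rw [h0, Complex.zero_re] at this
      exact lt_irrefl _ this
    have h1 := h.sep Ω₁ 0 hb.mem₁ hzero hne
    rw [sub_zero] at h1
    have h2 : Ω₁ = ((Ω₁.re : ℝ) : ℂ) := by
      apply Complex.ext
      · simp
      · simp [hb.im₁]
    have h3 : ‖Ω₁‖ = Ω₁.re := by
      rw [h2, Complex.norm_real, Real.norm_eq_abs, Complex.ofReal_re, abs_of_pos hb.re₁]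
    rwa [h3] at h1
  · obtain ⟨p, q, r, s, h1, h2, h3⟩ := hb.mem₂
    have hne : Ω₂ ≠ (starRingEnd ℂ) Ω₂ := by
      intro h0
      have h4 := congrArg Complex.im h0
      rw [Complex.conj_im] at h4
      have := hb.im₂
      linarith
    have h4 := h.sep Ω₂ ((starRingEnd ℂ) Ω₂) hb.mem₂ ⟨p, -q, -r, s, by linarith, by
      exact (dvd_neg).mpr h2, by rw [Hval_conj, ← h3]⟩ hne
    have h5 : Ω₂ - (starRingEnd ℂ) Ω₂ = ((2 * Ω₂.im : ℝ) : ℂ) * I := by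
      apply Complex.ext
      · simp
      · simp
        ring
    have h6 : ‖Ω₂ - (starRingEnd ℂ) Ω₂‖ = 2 * Ω₂.im := by
      rw [h5, norm_mul, Complex.norm_I, mul_one, Complex.norm_real, Real.norm_eq_abs,
        abs_of_pos (by have := hb.im₂; linarith)]
    rw [h6] at h4
    linarith

/-- the coordinates of a small element -/
theorem Sep.coord {ρ v : ℝ} (h : Sep N a ρ v) (hb : IsBasis N a Ω₁ Ω₂) (z : ℂ) :
    |L₁ Ω₁ Ω₂ z| ≤ 3 * ρ * ‖z‖ / v ∧ |L₂ Ω₂ z| ≤ 3 * ρ * ‖z‖ / v := by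
  obtain ⟨h1, h2⟩ := h.basis hb
  have hρ := h.hρ
  have hv := h.hv
  have r1 := hb.re₁
  have i2 := hb.im₂
  have e2 : L₂ Ω₂ z = z.im / Ω₂.im := by
    simp [L₂]
    ring
  have e1 : L₁ Ω₁ Ω₂ z = (z.re - Ω₂.re * L₂ Ω₂ z) / Ω₁.re := by
    simp [L₁]
    ring
  have hz := norm_nonneg z
  have b2 : |L₂ Ω₂ z| ≤ 2 * ρ * ‖z‖ / v := by
    rw [e2, abs_div, abs_of_pos i2, div_le_div_iff₀ i2 hv]
    have := Complex.abs_im_le_norm z
    have h3 : |z.im| * v ≤ ‖z‖ * v := mul_le_mul_of_nonneg_right this hv.le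
    have h4 : ‖z‖ * v ≤ ‖z‖ * (2 * ρ * Ω₂.im) := mul_le_mul_of_nonneg_left h2 hz
    linarith
  refine ⟨?_, b2.trans ?_⟩
  · rw [e1, abs_div, abs_of_pos r1]
    have h3 : |z.re - Ω₂.re * L₂ Ω₂ z| ≤ ‖z‖ + Ω₁.re * (2 * ρ * ‖z‖ / v) := by
      refine (abs_sub _ _).trans (add_le_add (Complex.abs_re_le_norm z) ?_)
      rw [abs_mul, abs_of_nonneg hb.re₂]
      exact mul_le_mul hb.re₂'.le b2 (abs_nonneg _) r1.le
    rw [div_le_iff₀ r1]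
    refine h3.trans ?_
    have h4 : ‖z‖ ≤ Ω₁.re * (ρ * ‖z‖ / v) := by
      rw [← mul_div_assoc, le_div_iff₀ hv]
      have : ‖z‖ * v ≤ ‖z‖ * (ρ * Ω₁.re) := mul_le_mul_of_nonneg_left h1 hz
      linarith
    have e : 3 * ρ * ‖z‖ / v * Ω₁.re = Ω₁.re * (ρ * ‖z‖ / v) + Ω₁.re * (2 * ρ * ‖z‖ / v) := by
      ring
    rw [e]
    linarith
  · refine div_le_div_of_nonneg_right ?_ hv.le
    have : 0 ≤ ρ * ‖z‖ := by positivity
    linarith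

/-- **the coordinates of the values of the Shimura map** -/
theorem Sep.all (hN : 1 ≤ N) {ρ v : ℝ} (h : Sep N a ρ v) (ha : IsForm N a) (he : Eul N a)
    (hb : IsBasis N a Ω₁ Ω₂) (p q r s : ℤ) (hdet : p * s - q * r = 1) (hr : (N : ℤ) ∣ r) :
    CoordBound a Ω₁ Ω₂ p q r s (12 * ρ * (r : ℝ) ^ 2 / v) ∧
      (r ≠ 0 → CoordBound a Ω₁ Ω₂ p q r s
        (24 * ρ * (N : ℝ) ^ 5 / v * (1 + Real.log |(r : ℝ)|))) := by
  have hρ := h.hρ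
  have hv := h.hv
  have hγ : InG N (Pool.Agent.TH133.SH.mk p q r s hdet) := hr
  have key : ∀ γ : Matrix.SpecialLinearGroup (Fin 2) ℤ, InG N γ →
      |L₁ Ω₁ Ω₂ (Hs a γ)| ≤ 12 * ρ * ((γ 1 0 : ℤ) : ℝ) ^ 2 / v ∧
      |L₂ Ω₂ (Hs a γ)| ≤ 12 * ρ * ((γ 1 0 : ℤ) : ℝ) ^ 2 / v := by
    intro γ hγ'
    obtain ⟨c1, c2⟩ := h.coord hb (Hs a γ)
    have h1 := H_le ha he hγ'
    have h2 : 3 * ρ * ‖Hs a γ‖ / v ≤ 12 * ρ * ((γ 1 0 : ℤ) : ℝ) ^ 2 / v := by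
      refine div_le_div_of_nonneg_right ?_ hv.le
      have := mul_le_mul_of_nonneg_left h1 (by positivity : 0 ≤ 3 * ρ)
      linarith
    exact ⟨c1.trans h2, c2.trans h2⟩
  have hto : ∀ X : ℝ, |L₁ Ω₁ Ω₂ (Hs a (Pool.Agent.TH133.SH.mk p q r s hdet))| ≤ X →
      |L₂ Ω₂ (Hs a (Pool.Agent.TH133.SH.mk p q r s hdet))| ≤ X → CoordBound a Ω₁ Ω₂ p q r s X := by
    intro X h1 h2 m n hmn
    have hHγ : Hs a (Pool.Agent.TH133.SH.mk p q r s hdet) = (m : ℂ) * Ω₁ + (n : ℂ) * Ω₂ := hmn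
    rw [hHγ, L₁_apply hb] at h1
    rw [hHγ, L₂_apply hb] at h2
    exact ⟨h1, h2⟩
  have e10 : (Pool.Agent.TH133.SH.mk p q r s hdet) 1 0 = r := rfl
  refine ⟨?_, fun hr0 => ?_⟩
  · obtain ⟨k1, k2⟩ := key _ hγ
    rw [e10] at k1 k2
    exact hto _ k1 k2
  · have hB : ∀ γ : Matrix.SpecialLinearGroup (Fin 2) ℤ, InG N γ → Bounded ((N : ℤ) ^ 2) γ →
        |L₁ Ω₁ Ω₂ (Hs a γ)| ≤ 12 * ρ * (N : ℝ) ^ 4 / v ∧ |L₂ Ω₂ (Hs a γ)| ≤ 12 * ρ * (N : ℝ) ^ 4 / v := by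
      intro γ h1 h2
      obtain ⟨k1, k2⟩ := key γ h1
      have h3 : ((γ 1 0 : ℤ) : ℝ) ^ 2 ≤ (N : ℝ) ^ 4 := by
        have h4 : |γ 1 0| ≤ (N : ℤ) ^ 2 := h2 1 0
        have h5 : |((γ 1 0 : ℤ) : ℝ)| ≤ (N : ℝ) ^ 2 := by exact_mod_cast h4
        calc ((γ 1 0 : ℤ) : ℝ) ^ 2 = |((γ 1 0 : ℤ) : ℝ)| ^ 2 := (sq_abs _).symm
          _ ≤ ((N : ℝ) ^ 2) ^ 2 := pow_le_pow_left₀ (abs_nonneg _) h5 2
          _ = _ := by ring
      have h6 : 12 * ρ * ((γ 1 0 : ℤ) : ℝ) ^ 2 / v ≤ 12 * ρ * (N : ℝ) ^ 4 / v := by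
        refine div_le_div_of_nonneg_right ?_ hv.le
        exact mul_le_mul_of_nonneg_left h3 (by positivity)
      exact ⟨k1.trans h6, k2.trans h6⟩
    have c1 := coord_bound hN ha (L₁ Ω₁ Ω₂) (fun γ h1 h2 => (hB γ h1 h2).1) hγ (by rw [e10]; exact hr0)
    have c2 := coord_bound hN ha (L₂ Ω₂) (fun γ h1 h2 => (hB γ h1 h2).2) hγ (by rw [e10]; exact hr0)
    rw [e10] at c1 c2
    have e : 2 * (12 * ρ * (N : ℝ) ^ 4 / v) * N * (1 + Real.log |(r : ℝ)|) =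
        24 * ρ * (N : ℝ) ^ 5 / v * (1 + Real.log |(r : ℝ)|) := by ring
    rw [e] at c1 c2
    exact hto _ c1 c2

end

/-- the separation from a period lattice -/
theorem sep_of {N : ℕ} {a : ℕ → ℤ} (L : PeriodPair) {ρ R : ℝ} (hρ : 0 < ρ)
    (hR : 0 < R) (h2 : ‖L.g₂‖ ≤ R ^ 4) (h3 : ‖L.g₃‖ ≤ R ^ 6)
    (hL : ∀ p q r s : ℤ, p * s - q * r = 1 → (N : ℤ) ∣ r → (ρ : ℂ) * Hval a p q r s ∈ L.lattice) :
    Sep N a ρ (2 / (3 * R)) := by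
  refine ⟨hρ, by positivity, ?_⟩
  rintro z w ⟨p, q, r, s, h1, h4, rfl⟩ ⟨p', q', r', s', h1', h4', rfl⟩ hne
  have hm := L.lattice.sub_mem (hL p q r s h1 h4) (hL p' q' r' s' h1' h4')
  rw [← mul_sub] at hm
  have hne' : (ρ : ℂ) * (Hval a p q r s - Hval a p' q' r' s') ≠ 0 :=
    mul_ne_zero (by exact_mod_cast hρ.ne') (sub_ne_zero.mpr hne)
  have h5 := period_ge L hR h2 h3 hm hne'
  rwa [norm_mul, Complex.norm_real, Real.norm_eq_abs, abs_of_pos hρ] at h5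

end Pool.Agent.N365.SM
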