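import Pool.Agent.N365.FH.D
import Pool.Agent.W270.TM.Glob

/-!
# The height of a minimal equation is bounded by its invariant and its conductor
-/

set_option autoImplicit false

namespace Pool.Agent.N365.SM

open Finset
open Pool.Agent.H925R.Szpiro (D IsMin condS)
open Pool.Agent.H39R3 (GMin condW cond_le condW_pos isMin_prime)

/-- splitting off a prime -/
theorem split_prime {p : ℕ} (hp : p.Prime) {a : ℤ} (ha : a ≠ 0) :
    ∃ (j : ℕ) (a' : ℤ), a = (p : ℤ) ^ j * a' ∧ ¬ (p : ℤ) ∣ a' := by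
  have hfin : FiniteMultiplicity (p : ℤ) a := by
    rw [Int.finiteMultiplicity_iff]
    refine ⟨?_, ha⟩
    rw [Int.natAbs_natCast]
    exact hp.one_lt.ne'
  obtain ⟨c, hc, hc'⟩ := hfin.exists_eq_pow_mul_and_not_dvd
  exact ⟨_, c, hc, hc'⟩

theorem cop_pow {p : ℕ} (hp : p.Prime) {a : ℤ} (ha : ¬ (p : ℤ) ∣ a) (k : ℕ) :
    IsCoprime ((p : ℤ) ^ k) a :=
  ((Nat.prime_iff_prime_int.1 hp).coprime_iff_not_dvd.2 ha).pow_left

/-- from a divisibility of the cubic expression -/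
theorem pow_step {p : ℕ} (hp : p.Prime) {a y : ℤ} (ha : a ≠ 0) {k J c : ℕ}
    (hc : ∃ u : ℤ, (6912 : ℤ) = (p : ℤ) ^ c * u ∧ ¬ (p : ℤ) ∣ u)
    (hJ : ¬ (p : ℤ) ^ (J + 1) ∣ a) (h : (p : ℤ) ^ k ∣ 6912 * a ^ 3 * y) :
    (p : ℤ) ^ k ∣ (p : ℤ) ^ (c + 3 * J) * y := by
  obtain ⟨j, a', ha', hpa'⟩ := split_prime hp ha
  obtain ⟨u, hu, hpu⟩ := hc
  have hjJ : j ≤ J := by
    by_contra hcon
    push Not at hcon
    apply hJ
    rw [ha']
    exact (pow_dvd_pow _ hcon).mul_right _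
  have h1 : (p : ℤ) ^ k ∣ (u * a' ^ 3) * ((p : ℤ) ^ (c + 3 * j) * y) := by
    have e : (u * a' ^ 3) * ((p : ℤ) ^ (c + 3 * j) * y) = 6912 * a ^ 3 * y := by
      rw [ha', hu]
      ring
    rw [e]
    exact h
  have hpr := Nat.prime_iff_prime_int.1 hp
  have hnd : ¬ (p : ℤ) ∣ u * a' ^ 3 := by
    intro hd
    rcases hpr.dvd_or_dvd hd with h2 | h2
    · exact hpu h2
    · exact hpa' (hpr.dvd_of_dvd_pow h2)
  have h2 := (cop_pow hp hnd k).dvd_of_dvd_mul_left h1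
  refine h2.trans (mul_dvd_mul_right (pow_dvd_pow _ ?_) _)
  omega

theorem sq_dvd {p : ℕ} (hp : p.Prime) {b : ℤ} (h : (p : ℤ) ^ 11 ∣ b ^ 2) : (p : ℤ) ^ 6 ∣ b := by
  by_cases hb : b = 0
  · rw [hb]; exact dvd_zero _
  obtain ⟨j, b', hb', hpb'⟩ := split_prime hp hb
  have hpr := Nat.prime_iff_prime_int.1 hp
  have h6 : 6 ≤ j := by
    by_contra hcon
    push Not at hcon
    rw [hb', mul_pow, ← pow_mul] at h
    have h1 : (p : ℤ) ^ (j * 2) * (p : ℤ) ^ (11 - j * 2) ∣ (p : ℤ) ^ (j * 2) * b' ^ 2 := by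
      rw [← pow_add]
      have e : j * 2 + (11 - j * 2) = 11 := by omega
      rw [e]
      exact h
    have h2 := (mul_dvd_mul_iff_left (pow_ne_zero _ hpr.ne_zero)).mp h1
    have h3 : (p : ℤ) ∣ b' ^ 2 := (dvd_pow_self _ (by omega)).trans h2
    exact hpb' (hpr.dvd_of_dvd_pow h3)
  rw [hb']
  exact (pow_dvd_pow _ h6).mul_right _

/-- the discriminant of a minimal short equation -/
theorem disc_dvd {a b x y : ℤ} (hmin : IsMin a b) (ha : a ≠ 0) (hrel : 6912 * a ^ 3 * y = x * D a b)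
    (p : ℕ) (hp : p.Prime) (k : ℕ) (hk : (p : ℤ) ^ k ∣ D a b) :
    (p : ℤ) ^ k ∣ (p : ℤ) ^ 20 * y ∧ (5 ≤ p → (p : ℤ) ^ k ∣ (p : ℤ) ^ 10 * y) ∧
      (5 ≤ p → ¬ (p : ℤ) ∣ a → (p : ℤ) ^ k ∣ y) := by
  have hpr := Nat.prime_iff_prime_int.1 hp
  have hkr : (p : ℤ) ^ k ∣ 6912 * a ^ 3 * y := by
    rw [hrel]
    exact hk.mul_left _
  have hnot : ¬ ((p : ℤ) ^ 4 ∣ a ∧ (p : ℤ) ^ 6 ∣ b) := fun h =>
    isMin_prime hmin p hp.two_le h.1 h.2
  have hD : D a b = 4 * a ^ 3 - 27 * b ^ 2 := rfl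
  have h6912 : 5 ≤ p → ∃ u : ℤ, (6912 : ℤ) = (p : ℤ) ^ 0 * u ∧ ¬ (p : ℤ) ∣ u := by
    intro h5
    refine ⟨6912, by norm_num, fun hd => ?_⟩
    have h1 : (p : ℤ) ∣ (2 : ℤ) ^ 8 * 3 ^ 3 := by norm_num; exact hd
    rcases hpr.dvd_or_dvd h1 with h2 | h2
    · have h3 := Int.le_of_dvd (by norm_num) (hpr.dvd_of_dvd_pow h2)
      have : (5 : ℤ) ≤ p := by exact_mod_cast h5
      omega
    · have h3 := Int.le_of_dvd (by norm_num) (hpr.dvd_of_dvd_pow h2)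
      have : (5 : ℤ) ≤ p := by exact_mod_cast h5
      omega
  have h27 : 5 ≤ p → ¬ (p : ℤ) ∣ 27 := by
    intro h5 hd
    have h1 : (p : ℤ) ∣ (3 : ℤ) ^ 3 := by norm_num; exact hd
    have h3 := Int.le_of_dvd (by norm_num) (hpr.dvd_of_dvd_pow h1)
    have : (5 : ℤ) ≤ p := by exact_mod_cast h5
    omega
  refine ⟨?_, ?_, ?_⟩
  · -- the general bound
    rcases le_or_gt k 20 with hk20 | hk20
    · exact (pow_dvd_pow _ hk20).mul_right _
    have hnd : ¬ (p : ℤ) ^ 5 ∣ a := by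
      intro h5a
      have h1 : (p : ℤ) ^ 15 ∣ D a b := (pow_dvd_pow _ (by omega)).trans hk
      have h2 : (p : ℤ) ^ 15 ∣ 4 * a ^ 3 := by
        have h3 : ((p : ℤ) ^ 5) ^ 3 ∣ a ^ 3 := pow_dvd_pow_of_dvd h5a 3
        rw [← pow_mul] at h3
        exact h3.mul_left _
      have h3 : (p : ℤ) ^ 15 ∣ 27 * b ^ 2 := by
        have e : 27 * b ^ 2 = 4 * a ^ 3 - D a b := by rw [hD]; ring
        rw [e]
        exact dvd_sub h2 h1
      have h4 : (p : ℤ) ^ 11 ∣ b ^ 2 := by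
        by_cases hp3 : p = 3
        · subst hp3
          have e : ((3 : ℕ) : ℤ) ^ 15 = 27 * ((3 : ℕ) : ℤ) ^ 12 := by norm_num
          rw [e] at h3
          have h5 := (mul_dvd_mul_iff_left (by norm_num : (27 : ℤ) ≠ 0)).mp h3
          exact (pow_dvd_pow _ (by norm_num)).trans h5
        · have hnd27 : ¬ (p : ℤ) ∣ 27 := by
            intro hd
            have h1 : (p : ℤ) ∣ (3 : ℤ) ^ 3 := by norm_num; exact hd
            have h2 := hpr.dvd_of_dvd_pow h1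
            have h3 : p ∣ 3 := by exact_mod_cast h2
            exact hp3 ((Nat.prime_dvd_prime_iff_eq hp Nat.prime_three).mp h3)
          exact (pow_dvd_pow _ (by norm_num)).trans
            ((cop_pow hp hnd27 15).dvd_of_dvd_mul_left h3)
      exact hnot ⟨(pow_dvd_pow _ (by norm_num)).trans h5a, sq_dvd hp h4⟩
    rcases lt_or_ge p 5 with h5 | h5
    · have h2 := hp.two_le
      interval_cases p
      · have := pow_step hp (c := 8) (J := 4) ha ⟨27, by norm_num, by norm_num⟩ hnd hkr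
        exact this
      · have := pow_step hp (c := 3) (J := 4) ha ⟨256, by norm_num, by norm_num⟩ hnd hkr
        exact this.trans (mul_dvd_mul_right (pow_dvd_pow _ (by norm_num)) _)
      · exact absurd hp (by norm_num)
    · have := pow_step hp (c := 0) (J := 4) ha (h6912 h5) hnd hkr
      exact this.trans (mul_dvd_mul_right (pow_dvd_pow _ (by norm_num)) _)
  · intro h5
    rcases le_or_gt k 10 with hk10 | hk10
    · exact (pow_dvd_pow _ hk10).mul_right _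
    have hnd : ¬ (p : ℤ) ^ 4 ∣ a := by
      intro h4a
      have h1 : (p : ℤ) ^ 11 ∣ D a b := (pow_dvd_pow _ (by omega)).trans hk
      have h2 : (p : ℤ) ^ 11 ∣ 4 * a ^ 3 := by
        have h3 : ((p : ℤ) ^ 4) ^ 3 ∣ a ^ 3 := pow_dvd_pow_of_dvd h4a 3
        rw [← pow_mul] at h3
        exact ((pow_dvd_pow _ (by norm_num)).trans h3).mul_left _
      have h3 : (p : ℤ) ^ 11 ∣ 27 * b ^ 2 := by
        have e : 27 * b ^ 2 = 4 * a ^ 3 - D a b := by rw [hD]; ring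
        rw [e]
        exact dvd_sub h2 h1
      exact hnot ⟨h4a, sq_dvd hp ((cop_pow hp (h27 h5) 11).dvd_of_dvd_mul_left h3)⟩
    have := pow_step hp (c := 0) (J := 3) ha (h6912 h5) hnd hkr
    exact this.trans (mul_dvd_mul_right (pow_dvd_pow _ (by norm_num)) _)
  · intro h5 hpa
    have := pow_step hp (c := 0) (J := 0) ha (h6912 h5) (by simpa using hpa) hkr
    simpa using this

/-- the discriminant is bounded -/
theorem disc_le {a b x y : ℤ} (hmin : IsMin a b) (ha : a ≠ 0) (hy : y ≠ 0)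
    (hrel : 6912 * a ^ 3 * y = x * D a b) :
    |((D a b : ℤ) : ℝ)| ≤ 6 ^ 20 * (condS a b : ℝ) ^ 5 * |(y : ℝ)| := by
  classical
  obtain ⟨T, hT⟩ : ∃ T : Finset ℕ, T = ((D a b).natAbs.primeFactors.filter (fun p : ℕ => 5 ≤ p)).filter
    (fun p : ℕ => (p : ℤ) ∣ a) := ⟨_, rfl⟩
  have hD0 : D a b ≠ 0 := hmin.1
  have hmem : ∀ p ∈ T, p.Prime := by
    intro p hp
    rw [hT, mem_filter, mem_filter, Nat.mem_primeFactors] at hp
    exact hp.1.1.1
  have hdvd : (D a b).natAbs ∣ 6 ^ 20 * (∏ p ∈ T, p) ^ 10 * y.natAbs := by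
    rw [Nat.dvd_iff_prime_pow_dvd_dvd]
    intro p k hp hk
    have hkZ : (p : ℤ) ^ k ∣ D a b := by
      rw [← Int.natCast_pow, Int.natCast_dvd]
      exact hk
    obtain ⟨d1, d2, d3⟩ := disc_dvd hmin ha hrel p hp k hkZ
    have tr : ∀ z : ℤ, (p : ℤ) ^ k ∣ z → p ^ k ∣ z.natAbs := by
      intro z hz
      rw [← Int.natCast_pow, Int.natCast_dvd] at hz
      exact hz
    rcases lt_or_ge p 5 with h5 | h5
    · have h1 := tr _ d1
      rw [Int.natAbs_mul, Int.natAbs_pow, Int.natAbs_natCast] at h1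
      refine h1.trans ?_
      have h6 : p ∣ 6 := by
        have h2 := hp.two_le
        interval_cases p
        · norm_num
        · norm_num
        · exact absurd hp (by norm_num)
      have h7 : p ^ 20 ∣ 6 ^ 20 := pow_dvd_pow_of_dvd h6 20
      exact mul_dvd_mul_right (h7.mul_right _) _
    · rcases Nat.eq_zero_or_pos k with hk0 | hk0
      · rw [hk0, pow_zero]; exact one_dvd _
      by_cases hpa : (p : ℤ) ∣ a
      · have h1 := tr _ (d2 h5)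
        rw [Int.natAbs_mul, Int.natAbs_pow, Int.natAbs_natCast] at h1
        refine h1.trans ?_
        have hpT : p ∈ T := by
          rw [hT, mem_filter, mem_filter, Nat.mem_primeFactors]
          exact ⟨⟨⟨hp, (dvd_pow_self p hk0.ne').trans hk, Int.natAbs_ne_zero.mpr hD0⟩, h5⟩, hpa⟩
        have h7 : p ^ 10 ∣ (∏ p ∈ T, p) ^ 10 := pow_dvd_pow_of_dvd (dvd_prod_of_mem _ hpT) 10
        exact mul_dvd_mul_right (h7.mul_left _) _
      · have h1 := tr _ (d3 h5 hpa)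
        exact h1.mul_left _
  have hy0 : 0 < y.natAbs := Int.natAbs_pos.mpr hy
  have hP1 : 1 ≤ ∏ p ∈ T, p := Nat.one_le_iff_ne_zero.mpr (prod_ne_zero_iff.mpr fun p hp =>
    (hmem p hp).ne_zero)
  have hle := Nat.le_of_dvd (by positivity) hdvd
  have hcond : (∏ p ∈ T, p) ^ 2 ≤ condS a b := by
    unfold condS
    rw [← prod_pow]
    have e : ∏ p ∈ T, p ^ 2 = ∏ p ∈ T, (if (p : ℤ) ∣ a then p ^ 2 else p) := by
      refine prod_congr rfl fun p hp => ?_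
      rw [hT, mem_filter] at hp
      rw [if_pos hp.2]
    rw [e, hT]
    refine prod_le_prod_of_subset_of_one_le' (filter_subset _ _) fun p hp _ => ?_
    rw [mem_filter, Nat.mem_primeFactors] at hp
    have := hp.1.1.pos
    split_ifs
    · exact Nat.one_le_pow _ _ this
    · exact this
  have hcond' : (∏ p ∈ T, p) ^ 10 ≤ condS a b ^ 5 := by
    calc (∏ p ∈ T, p) ^ 10 = ((∏ p ∈ T, p) ^ 2) ^ 5 := by ring
      _ ≤ _ := Nat.pow_le_pow_left hcond 5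
  have hfin : (D a b).natAbs ≤ 6 ^ 20 * condS a b ^ 5 * y.natAbs :=
    hle.trans (Nat.mul_le_mul_right _ (Nat.mul_le_mul_left _ hcond'))
  have h1 : (((D a b).natAbs : ℕ) : ℝ) ≤ ((6 ^ 20 * condS a b ^ 5 * y.natAbs : ℕ) : ℝ) := by
    exact_mod_cast hfin
  push_cast at h1
  rw [Nat.cast_natAbs, Nat.cast_natAbs, Int.cast_abs, Int.cast_abs] at h1
  refine h1.trans (le_of_eq ?_)
  norm_num

/-- **the height of a minimal equation** -/
theorem height_le {W : WeierstrassCurve ℤ} (hW : GMin W) {x y : ℤ} (hx : x ≠ 0) (hy : y ≠ 0)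
    (hj : W.c₄ ^ 3 * y = x * W.Δ) :
    max (|(W.c₄ : ℝ)| ^ 3) ((W.c₆ : ℝ) ^ 2) ≤
      10 ^ 21 * (|(x : ℝ)| + |(y : ℝ)|) * (condW W : ℝ) ^ 5 ∧
    (∀ l : ℕ, l.Prime → 5 ≤ l → (l : ℤ) ∣ y → ¬ (l : ℤ) ∣ x → l ∣ condW W) := by
  obtain ⟨a, b, r, s, hmin, -, hs0, hsr, hr6, e4, e6, e12, hrs⟩ := Pool.Agent.W270.TM.intsR W hW
  have hr0 : 0 < r := lt_of_lt_of_le hs0 hsr
  have hsZ : (s : ℤ) ≠ 0 := by exact_mod_cast hs0.ne'
  have hrel : 6912 * a ^ 3 * y = x * D a b := by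
    have h1 : 16 * (s : ℤ) ^ 12 * (6912 * a ^ 3 * y) = 16 * (s : ℤ) ^ 12 * (x * D a b) := by
      calc 16 * (s : ℤ) ^ 12 * (6912 * a ^ 3 * y) = (48 * a * (s : ℤ) ^ 4) ^ 3 * y := by ring
        _ = (r : ℤ) ^ 12 * (W.c₄ ^ 3 * y) := by rw [e4]; ring
        _ = x * ((r : ℤ) ^ 12 * W.Δ) := by rw [hj]; ring
        _ = _ := by rw [← e12]; ring
    exact mul_left_cancel₀ (mul_ne_zero (by norm_num) (pow_ne_zero _ hsZ)) h1
  have hD0 : D a b ≠ 0 := hmin.1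
  have ha : a ≠ 0 := by
    rintro rfl
    have h1 : x * D 0 b = 0 := by rw [← hrel]; ring
    rcases mul_eq_zero.mp h1 with h | h
    · exact hx h
    · exact hD0 h
  have hcS : condS a b ≤ condW W := cond_le W a b r s hr6 e4 e12 hW.1
  have hcSR : (condS a b : ℝ) ≤ condW W := by exact_mod_cast hcS
  have hd := disc_le hmin ha hy hrel
  have hx0 : 0 < |(x : ℝ)| := abs_pos.mpr (by exact_mod_cast hx)
  have hy0 : 0 < |(y : ℝ)| := abs_pos.mpr (by exact_mod_cast hy)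
  obtain ⟨K, hK⟩ : ∃ K : ℝ, K = (condW W : ℝ) ^ 5 := ⟨_, rfl⟩
  have hK0 : 0 ≤ K := by rw [hK]; positivity
  have hd' : |((D a b : ℤ) : ℝ)| ≤ 6 ^ 20 * K * |(y : ℝ)| := by
    refine hd.trans (mul_le_mul_of_nonneg_right ?_ hy0.le)
    rw [hK]
    exact mul_le_mul_of_nonneg_left (pow_le_pow_left₀ (Nat.cast_nonneg _) hcSR 5) (by positivity)
  have ha3 : 6912 * |(a : ℝ)| ^ 3 ≤ 6 ^ 20 * K * |(x : ℝ)| := by
    have h1 : 6912 * |(a : ℝ)| ^ 3 * |(y : ℝ)| = |(x : ℝ)| * |((D a b : ℤ) : ℝ)| := by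
      have h2 := congrArg (fun z : ℤ => |(z : ℝ)|) hrel
      simp only [Int.cast_mul, Int.cast_pow, abs_mul, abs_pow] at h2
      rw [← h2]
      norm_num
    have h2 : 6912 * |(a : ℝ)| ^ 3 * |(y : ℝ)| ≤ 6 ^ 20 * K * |(x : ℝ)| * |(y : ℝ)| := by
      rw [h1]
      calc |(x : ℝ)| * |((D a b : ℤ) : ℝ)| ≤ |(x : ℝ)| * (6 ^ 20 * K * |(y : ℝ)|) :=
            mul_le_mul_of_nonneg_left hd' hx0.le
        _ = _ := by ring
    exact le_of_mul_le_mul_right h2 hy0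
  have hb2 : 27 * (b : ℝ) ^ 2 ≤ 4 * |(a : ℝ)| ^ 3 + |((D a b : ℤ) : ℝ)| := by
    have e : ((D a b : ℤ) : ℝ) = 4 * (a : ℝ) ^ 3 - 27 * (b : ℝ) ^ 2 := by
      unfold D
      push_cast
      ring
    have h1 : 27 * (b : ℝ) ^ 2 = 4 * (a : ℝ) ^ 3 - ((D a b : ℤ) : ℝ) := by rw [e]; ring
    rw [h1]
    have h2 : (a : ℝ) ^ 3 ≤ |(a : ℝ)| ^ 3 := by rw [← abs_pow]; exact le_abs_self _
    have h3 := neg_abs_le ((D a b : ℤ) : ℝ)
    linarith
  -- the invariants of `W`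
  have hc4 : |(W.c₄ : ℝ)| ≤ 48 * |(a : ℝ)| := by
    have h1 : (r : ℝ) ^ 4 * |(W.c₄ : ℝ)| = 48 * |(a : ℝ)| * (s : ℝ) ^ 4 := by
      have h2 := congrArg (fun z : ℤ => |(z : ℝ)|) e4
      simp only [Int.cast_mul, Int.cast_pow, abs_mul, abs_pow, Int.cast_natCast, Nat.abs_cast] at h2
      rw [← h2]
      norm_num
    have h3 : (s : ℝ) ^ 4 ≤ (r : ℝ) ^ 4 := pow_le_pow_left₀ (Nat.cast_nonneg _) (by exact_mod_cast hsr) 4
    have hr4 : (0 : ℝ) < (r : ℝ) ^ 4 := by positivity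
    have h4 : (r : ℝ) ^ 4 * |(W.c₄ : ℝ)| ≤ (r : ℝ) ^ 4 * (48 * |(a : ℝ)|) := by
      rw [h1]
      have := mul_le_mul_of_nonneg_left h3 (by positivity : 0 ≤ 48 * |(a : ℝ)|)
      linarith
    exact le_of_mul_le_mul_left h4 hr4
  have hc6 : |(W.c₆ : ℝ)| ≤ 864 * |(b : ℝ)| := by
    have h1 : (r : ℝ) ^ 6 * |(W.c₆ : ℝ)| = 864 * |(b : ℝ)| * (s : ℝ) ^ 6 := by
      have h2 := congrArg (fun z : ℤ => |(z : ℝ)|) e6
      simp only [Int.cast_mul, Int.cast_pow, abs_mul, abs_pow, Int.cast_natCast, Nat.abs_cast] at h2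
      rw [← h2]
      norm_num
    have h3 : (s : ℝ) ^ 6 ≤ (r : ℝ) ^ 6 := pow_le_pow_left₀ (Nat.cast_nonneg _) (by exact_mod_cast hsr) 6
    have hr4 : (0 : ℝ) < (r : ℝ) ^ 6 := by positivity
    have h4 : (r : ℝ) ^ 6 * |(W.c₆ : ℝ)| ≤ (r : ℝ) ^ 6 * (864 * |(b : ℝ)|) := by
      rw [h1]
      have := mul_le_mul_of_nonneg_left h3 (by positivity : 0 ≤ 864 * |(b : ℝ)|)
      linarith
    exact le_of_mul_le_mul_left h4 hr4
  rw [← hK]
  refine ⟨max_le ?_ ?_, ?_⟩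
  · have h1 : |(W.c₄ : ℝ)| ^ 3 ≤ (48 * |(a : ℝ)|) ^ 3 := pow_le_pow_left₀ (abs_nonneg _) hc4 3
    have h2 : (48 * |(a : ℝ)|) ^ 3 = 16 * (6912 * |(a : ℝ)| ^ 3) := by ring
    have h3 : 0 ≤ K * |(x : ℝ)| := by positivity
    have h4 : 0 ≤ K * |(y : ℝ)| := by positivity
    calc |(W.c₄ : ℝ)| ^ 3 ≤ 16 * (6 ^ 20 * K * |(x : ℝ)|) := by
          rw [h2] at h1
          linarith
      _ ≤ _ := by nlinarith
  · have h1 : (W.c₆ : ℝ) ^ 2 ≤ (864 * |(b : ℝ)|) ^ 2 := by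
      rw [← sq_abs (W.c₆ : ℝ)]
      exact pow_le_pow_left₀ (abs_nonneg _) hc6 2
    have h2 : (864 * |(b : ℝ)|) ^ 2 = 27648 * (27 * (b : ℝ) ^ 2) := by
      rw [mul_pow, sq_abs]
      ring
    have h3 : 0 ≤ K * |(x : ℝ)| := by positivity
    have h4 : 0 ≤ K * |(y : ℝ)| := by positivity
    calc (W.c₆ : ℝ) ^ 2 ≤ 27648 * (4 * (6 ^ 20 * K * |(x : ℝ)| / 6912) + 6 ^ 20 * K * |(y : ℝ)|) := by
          rw [h2] at h1
          refine h1.trans (mul_le_mul_of_nonneg_left (hb2.trans ?_) (by norm_num))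
          refine add_le_add ?_ hd'
          rw [← mul_div_assoc, le_div_iff₀ (by norm_num)]
          linarith
      _ ≤ _ := by nlinarith
  · intro l hl h5 hly hlx
    have hlr := Nat.prime_iff_prime_int.1 hl
    have h1 : (l : ℤ) ∣ W.Δ := by
      have h2 : (l : ℤ) ∣ x * W.Δ := by
        rw [← hj]
        exact hly.mul_left _
      exact (hlr.dvd_or_dvd h2).resolve_left hlx
    unfold condW
    have hmemW : l ∈ W.Δ.natAbs.primeFactors.filter (fun p => 5 ≤ p) := by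
      rw [mem_filter, Nat.mem_primeFactors]
      refine ⟨⟨hl, ?_, Int.natAbs_ne_zero.mpr hW.1⟩, h5⟩
      rw [← Int.natCast_dvd]
      exact h1
    refine Dvd.dvd.trans ?_ (dvd_prod_of_mem _ hmemW)
    split_ifs
    · exact dvd_pow_self l two_ne_zero
    · exact dvd_rfl

end Pool.Agent.N365.SM
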