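import Pool.Agent.N365.SM.C
import Pool.Agent.N365.SM.D

/-!
# The Shimura maps of the newforms attached to the members of a family
-/

set_option autoImplicit false

namespace Pool.Agent.N365.SM

open Finset
open Pool.Agent.TH133.SH (IsNewform IsBasis CoordBound Hval)
open Pool.Agent.H39R3 (GMin condW condW_pos)
open Pool.Agent.N365.HY (Many)
open Pool.Agent.N365.FH (Follows many_five)

/-- the number of the solutions modulo `p` of the affine equation -/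
noncomputable def cnt (W : WeierstrassCurve ℤ) (p : ℕ) : ℕ :=
  {P : ZMod p × ZMod p | P.2 ^ 2 + (W.a₁ : ZMod p) * P.1 * P.2 + (W.a₃ : ZMod p) * P.2 =
    P.1 ^ 3 + (W.a₂ : ZMod p) * P.1 ^ 2 + (W.a₄ : ZMod p) * P.1 + (W.a₆ : ZMod p)}.ncard

theorem cnt_le (W : WeierstrassCurve ℤ) {p : ℕ} (hp : p.Prime) : cnt W p ≤ 2 * p := by
  classical
  have : Fact p.Prime := ⟨hp⟩
  obtain ⟨S, hS⟩ : ∃ S : Finset (ZMod p × ZMod p), S = univ.filter fun P =>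
    P.2 ^ 2 + (W.a₁ : ZMod p) * P.1 * P.2 + (W.a₃ : ZMod p) * P.2 =
    P.1 ^ 3 + (W.a₂ : ZMod p) * P.1 ^ 2 + (W.a₄ : ZMod p) * P.1 + (W.a₆ : ZMod p) := ⟨_, rfl⟩
  have e : cnt W p = S.card := by
    unfold cnt
    rw [← Set.ncard_coe_finset, hS]
    congr 1
    ext P
    simp
  rw [e, card_eq_sum_card_fiberwise (f := fun P : ZMod p × ZMod p => P.1)
    (t := (univ : Finset (ZMod p))) (fun _ _ => mem_coe.mpr (mem_univ _))]
  have h2 : ∀ x ∈ (univ : Finset (ZMod p)), (S.filter fun P => P.1 = x).card ≤ 2 := by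
    intro x _
    obtain ⟨Q, hQ⟩ : ∃ Q : Polynomial (ZMod p), Q = Polynomial.X ^ 2 +
      Polynomial.C ((W.a₁ : ZMod p) * x + (W.a₃ : ZMod p)) * Polynomial.X +
      Polynomial.C (-(x ^ 3 + (W.a₂ : ZMod p) * x ^ 2 + (W.a₄ : ZMod p) * x + (W.a₆ : ZMod p))) :=
      ⟨_, rfl⟩
    have hdeg : Q.natDegree = 2 := by
      rw [hQ]
      compute_degree!
    have hQ0 : Q ≠ 0 := by
      rintro h0
      rw [h0, Polynomial.natDegree_zero] at hdeg
      omega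
    have hcard : (S.filter fun P => P.1 = x).card ≤ Q.roots.toFinset.card := by
      refine card_le_card_of_injOn (fun P => P.2) ?_ ?_
      · intro P hP
        rw [mem_coe, mem_filter, hS, mem_filter] at hP
        obtain ⟨⟨-, h1⟩, h3⟩ := hP
        rw [mem_coe, Multiset.mem_toFinset, Polynomial.mem_roots hQ0, Polynomial.IsRoot.def, hQ]
        simp only [Polynomial.eval_add, Polynomial.eval_pow, Polynomial.eval_X,
          Polynomial.eval_mul, Polynomial.eval_C]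
        rw [← h3]
        linear_combination h1
      · intro P hP P' hP' h
        rw [mem_coe, mem_filter] at hP hP'
        exact Prod.ext (hP.2.trans hP'.2.symm) h
    refine hcard.trans ((Multiset.toFinset_card_le _).trans ((Polynomial.card_roots' _).trans ?_))
    rw [hdeg]
  refine (sum_le_sum h2).trans (le_of_eq ?_)
  rw [sum_const, card_univ, ZMod.card, smul_eq_mul, mul_comm]

/-- the newform is attached to the curve -/
structure Att (N : ℕ) (a : ℕ → ℤ) (W : WeierstrassCurve ℤ) (ρ : ℝ) : Prop where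
  new : IsNewform N a
  lev : condW W ∣ N
  tr : ∀ p : ℕ, p.Prime → a p = (p : ℤ) - (cnt W p : ℤ)
  bad : ∀ p : ℕ, p.Prime → p ∣ N → ∀ n : ℕ, a (p * n) = a p * a n
  pos : 0 < ρ
  per : ∃ L : PeriodPair, L.g₂ = (W.c₄ : ℂ) / 12 ∧ L.g₃ = (W.c₆ : ℂ) / 216 ∧
    ∀ p q r s : ℤ, p * s - q * r = 1 → (N : ℤ) ∣ r → (ρ : ℂ) * Hval a p q r s ∈ L.lattice

theorem Att.eul {N : ℕ} {a : ℕ → ℤ} {W : WeierstrassCurve ℤ} {ρ : ℝ} (h : Att N a W ρ) :
    Eul N a := by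
  refine ⟨h.new.zero, h.new.one, fun p hp => ?_, fun p hp n => ?_⟩
  · rw [h.tr p hp]
    have h1 := cnt_le W hp
    have h2 : (cnt W p : ℤ) ≤ 2 * p := by exact_mod_cast h1
    have h3 : (0 : ℤ) ≤ cnt W p := Nat.cast_nonneg _
    rw [abs_le]
    constructor <;> linarith
  · by_cases hpN : p ∣ N
    · exact Or.inl (h.bad p hp hpN n)
    · have h1 := h.new.hecke p hp hpN n
      by_cases hpn : p ∣ n
      · rw [if_pos hpn] at h1
        exact Or.inr ⟨hpn, h1⟩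
      · rw [if_neg hpn, add_zero] at h1
        exact Or.inl h1

/-- the coordinates in terms of the height of the curve -/
theorem Att.all {N : ℕ} {a : ℕ → ℤ} {W : WeierstrassCurve ℤ} {ρ : ℝ} (h : Att N a W ρ)
    (hN : 1 ≤ N) {R : ℝ} (hR : 0 < R)
    (hH : max (|(W.c₄ : ℝ)| ^ 3) ((W.c₆ : ℝ) ^ 2) ≤ R ^ 12) {Ω₁ Ω₂ : ℂ}
    (hb : IsBasis N a Ω₁ Ω₂) (p q r s : ℤ) (hdet : p * s - q * r = 1) (hr : (N : ℤ) ∣ r) :
    CoordBound a Ω₁ Ω₂ p q r s (18 * ρ * (r : ℝ) ^ 2 * R) ∧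
      (r ≠ 0 → CoordBound a Ω₁ Ω₂ p q r s
        (36 * ρ * (N : ℝ) ^ 5 * R * (1 + Real.log |(r : ℝ)|))) := by
  obtain ⟨L, e2, e3, hL⟩ := h.per
  have h2 : ‖L.g₂‖ ≤ R ^ 4 := by
    have h4 : |(W.c₄ : ℝ)| ^ 3 ≤ (R ^ 4) ^ 3 := by
      rw [← pow_mul]
      exact (le_max_left _ _).trans hH
    have h5 : |(W.c₄ : ℝ)| ≤ R ^ 4 := (pow_le_pow_iff_left₀ (abs_nonneg _) (by positivity)
      (by norm_num)).mp h4
    rw [e2, norm_div, Complex.norm_intCast]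
    have : ‖(12 : ℂ)‖ = 12 := by norm_num
    rw [this, div_le_iff₀ (by norm_num)]
    have : 0 ≤ R ^ 4 := by positivity
    linarith
  have h3 : ‖L.g₃‖ ≤ R ^ 6 := by
    have h4 : |(W.c₆ : ℝ)| ^ 2 ≤ (R ^ 6) ^ 2 := by
      rw [← pow_mul, sq_abs]
      exact (le_max_right _ _).trans hH
    have h5 : |(W.c₆ : ℝ)| ≤ R ^ 6 := (pow_le_pow_iff_left₀ (abs_nonneg _) (by positivity)
      (by norm_num)).mp h4
    rw [e3, norm_div, Complex.norm_intCast]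
    have : ‖(216 : ℂ)‖ = 216 := by norm_num
    rw [this, div_le_iff₀ (by norm_num)]
    have : 0 ≤ R ^ 6 := by positivity
    linarith
  have hs := sep_of L h.pos hR h2 h3 hL
  obtain ⟨k1, k2⟩ := hs.all hN h.new.toIsForm h.eul hb p q r s hdet hr
  have q1 : 12 * ρ * (r : ℝ) ^ 2 / (2 / (3 * R)) = 18 * ρ * (r : ℝ) ^ 2 * R := by
    field_simp
    ring
  have q2 : 24 * ρ * (N : ℝ) ^ 5 / (2 / (3 * R)) = 36 * ρ * (N : ℝ) ^ 5 * R := by
    field_simp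
    ring
  rw [q1] at k1
  rw [q2] at k2
  exact ⟨k1, k2⟩

/-- the polynomial bounds for the Shimura maps of all newforms attached to all curves of invariant
`j` -/
def Sh (κ : ℝ) (j : ℚ) : Prop :=
  ∀ W : WeierstrassCurve ℤ, GMin W → (W.c₄ : ℚ) ^ 3 / (W.Δ : ℚ) = j →
    ∀ (N : ℕ) (a : ℕ → ℤ) (ρ : ℝ), 1 ≤ N → Att N a W ρ → ∀ Ω₁ Ω₂ : ℂ, IsBasis N a Ω₁ Ω₂ →
      ∀ p q r s : ℤ, p * s - q * r = 1 → (N : ℤ) ∣ r →
        (|r| ≤ (N : ℤ) ^ 2 → CoordBound a Ω₁ Ω₂ p q r s (ρ * (N : ℝ) ^ κ)) ∧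
        (r ≠ 0 → CoordBound a Ω₁ Ω₂ p q r s
          (ρ * (N : ℝ) ^ (κ + 1) * (1 + Real.log |(r : ℝ)|)))

theorem shimura (d : ℕ) {ε : ℝ} (hε : 0 < ε) :
    Follows (ε / 8) (d + 1) (fun _ j => Sh (11 / 2 + 4 * (d + 1) / (3 * ε)) j) := by
  have hlim : Filter.Tendsto (fun B : ℕ => (B : ℝ) ^ (ε / 16)) Filter.atTop Filter.atTop :=
    (tendsto_rpow_atTop (by positivity)).comp tendsto_natCast_atTop_atTop
  obtain ⟨B₀, hB₀⟩ := Filter.eventually_atTop.mp (hlim.eventually_ge_atTop (2 * 10 ^ 21))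
  refine ⟨B₀, fun B hB hB1 x y hM hx hy W hW hj N a ρ hN hA Ω₁ Ω₂ hb p q r s hdet hr => ?_⟩
  have hbigB := hB₀ B hB
  have hBpos : (0 : ℝ) < B := by exact_mod_cast hB1
  have hB1' : (1 : ℝ) ≤ B := by exact_mod_cast hB1
  have e16 : ε / 8 / 2 = ε / 16 := by ring
  obtain ⟨F, hF, hbig⟩ := many_five hM hB1 (by rw [e16]; linarith)
  rw [e16] at hbig
  have hy0 : y ≠ 0 := hM.1
  have hx0 : x ≠ 0 := by
    rintro rfl
    have hne : F.Nonempty := by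
      rw [Finset.nonempty_iff_ne_empty]
      intro he
      rw [he, Finset.prod_empty, Nat.cast_one] at hbig
      linarith
    obtain ⟨l, hl⟩ := hne
    exact (hF l hl).2.2.1 (dvd_zero _)
  have hjZ : W.c₄ ^ 3 * y = x * W.Δ := by
    have hΔ : (W.Δ : ℚ) ≠ 0 := by exact_mod_cast hW.1
    have hyQ : (y : ℚ) ≠ 0 := by exact_mod_cast hy0
    rw [div_eq_div_iff hΔ hyQ] at hj
    exact_mod_cast hj
  obtain ⟨hH, hdiv⟩ := height_le hW hx0 hy0 hjZ
  have hFd : (∏ l ∈ F, l) ∣ condW W := by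
    refine Finset.prod_primes_dvd _ (fun l hl => (hF l hl).1.prime) fun l hl => ?_
    obtain ⟨g1, g2, g3, g4⟩ := hF l hl
    exact hdiv l g1 g4 g2 g3
  have hcpos : 0 < condW W := condW_pos W
  obtain ⟨c, hc⟩ : ∃ c : ℝ, c = (condW W : ℝ) := ⟨_, rfl⟩
  have hBc : (B : ℝ) ^ (ε / 16) ≤ c := by
    rw [hc]
    refine hbig.trans ?_
    exact_mod_cast Nat.le_of_dvd hcpos hFd
  have hcbig : 2 * 10 ^ 21 ≤ c := hbigB.trans hBc
  have hc1 : 1 ≤ c := by linarith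
  have hc0 : 0 < c := by linarith
  obtain ⟨m, hm⟩ : ∃ m : ℝ, m = 16 * ((d : ℝ) + 1) / ε := ⟨_, rfl⟩
  have hBM : (B : ℝ) ^ (d + 1) ≤ c ^ m := by
    have h1 : ((B : ℝ) ^ (ε / 16)) ^ m ≤ c ^ m := by
      refine Real.rpow_le_rpow (by positivity) hBc ?_
      rw [hm]; positivity
    rw [← Real.rpow_mul hBpos.le] at h1
    have e : ε / 16 * m = ((d + 1 : ℕ) : ℝ) := by
      rw [hm]
      push_cast
      field_simp
    rw [e, Real.rpow_natCast] at h1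
    exact h1
  have hHc : max (|(W.c₄ : ℝ)| ^ 3) ((W.c₆ : ℝ) ^ 2) ≤ c ^ (m + 6) := by
    refine hH.trans ?_
    rw [← hc]
    have h1 : |(x : ℝ)| + |(y : ℝ)| ≤ 2 * c ^ m := by
      have := hx.trans hBM
      have := hy.trans hBM
      linarith
    have e : c ^ (m + 6) = c * (c ^ m * c ^ 5) := by
      rw [Real.rpow_add hc0]
      have : c ^ (6 : ℝ) = c ^ 6 := by exact_mod_cast Real.rpow_natCast c 6
      rw [this]
      ring
    rw [e]
    have hcm : 0 ≤ c ^ m * c ^ 5 := by positivity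
    calc 10 ^ 21 * (|(x : ℝ)| + |(y : ℝ)|) * c ^ 5 ≤ 10 ^ 21 * (2 * c ^ m) * c ^ 5 := by
          refine mul_le_mul_of_nonneg_right (mul_le_mul_of_nonneg_left h1 (by positivity))
            (by positivity)
      _ = 2 * 10 ^ 21 * (c ^ m * c ^ 5) := by ring
      _ ≤ c * (c ^ m * c ^ 5) := mul_le_mul_of_nonneg_right hcbig hcm
  have hN0 : 0 < N := hN
  have hcN : c ≤ N := by
    rw [hc]
    exact_mod_cast Nat.le_of_dvd hN0 hA.lev
  have hNbig : 36 ≤ (N : ℝ) := by linarith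
  have hNpos : (0 : ℝ) < N := by linarith
  obtain ⟨R, hR⟩ : ∃ R : ℝ, R = (N : ℝ) ^ ((m + 6) / 12) := ⟨_, rfl⟩
  have hm0 : 0 ≤ m := by rw [hm]; positivity
  have hRpos : 0 < R := by rw [hR]; positivity
  have hHR : max (|(W.c₄ : ℝ)| ^ 3) ((W.c₆ : ℝ) ^ 2) ≤ R ^ 12 := by
    refine hHc.trans ?_
    rw [hR, ← Real.rpow_natCast, ← Real.rpow_mul hNpos.le]
    have e : (m + 6) / 12 * ((12 : ℕ) : ℝ) = m + 6 := by push_cast; ring
    rw [e]
    exact Real.rpow_le_rpow hc0.le hcN (by linarith)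
  obtain ⟨k1, k2⟩ := hA.all hN hRpos hHR hb p q r s hdet hr
  have hρ := hA.pos
  have hκ : 11 / 2 + 4 * ((d : ℝ) + 1) / (3 * ε) = (m + 6) / 12 + 5 := by
    rw [hm]
    field_simp
    ring
  have e5 : (N : ℝ) ^ (11 / 2 + 4 * ((d : ℝ) + 1) / (3 * ε)) = R * (N : ℝ) ^ 5 := by
    rw [hκ, Real.rpow_add hNpos, ← hR]
    congr 1
    exact_mod_cast Real.rpow_natCast (N : ℝ) 5
  have e6 : (N : ℝ) ^ (11 / 2 + 4 * ((d : ℝ) + 1) / (3 * ε) + 1) = R * (N : ℝ) ^ 6 := by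
    rw [Real.rpow_add hNpos, e5, Real.rpow_one]
    ring
  refine ⟨fun hrN => ?_, fun hr0 => ?_⟩
  · intro m' n' hmn
    have hle : 18 * ρ * (r : ℝ) ^ 2 * R ≤ ρ * (N : ℝ) ^ (11 / 2 + 4 * ((d : ℝ) + 1) / (3 * ε)) := by
      rw [e5]
      have h1 : (r : ℝ) ^ 2 ≤ (N : ℝ) ^ 4 := by
        have h5 : |(r : ℝ)| ≤ (N : ℝ) ^ 2 := by exact_mod_cast hrN
        calc (r : ℝ) ^ 2 = |(r : ℝ)| ^ 2 := (sq_abs _).symm
          _ ≤ ((N : ℝ) ^ 2) ^ 2 := pow_le_pow_left₀ (abs_nonneg _) h5 2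
          _ = _ := by ring
      have hρR : 0 ≤ ρ * R := by positivity
      calc 18 * ρ * (r : ℝ) ^ 2 * R = ρ * R * (18 * (r : ℝ) ^ 2) := by ring
        _ ≤ ρ * R * ((N : ℝ) * (N : ℝ) ^ 4) := by
            refine mul_le_mul_of_nonneg_left ?_ hρR
            exact mul_le_mul (by linarith) h1 (by positivity) hNpos.le
        _ = _ := by ring
    obtain ⟨a1, a2⟩ := k1 m' n' hmn
    exact ⟨a1.trans hle, a2.trans hle⟩
  · intro m' n' hmn
    have hlog : 0 ≤ 1 + Real.log |(r : ℝ)| := by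
      have h1 : (1 : ℝ) ≤ |(r : ℝ)| := by exact_mod_cast Int.one_le_abs hr0
      have := Real.log_nonneg h1
      linarith
    have hle : 36 * ρ * (N : ℝ) ^ 5 * R * (1 + Real.log |(r : ℝ)|) ≤
        ρ * (N : ℝ) ^ (11 / 2 + 4 * ((d : ℝ) + 1) / (3 * ε) + 1) * (1 + Real.log |(r : ℝ)|) := by
      refine mul_le_mul_of_nonneg_right ?_ hlog
      rw [e6]
      have hρR : 0 ≤ ρ * R * (N : ℝ) ^ 5 := by positivity
      calc 36 * ρ * (N : ℝ) ^ 5 * R = ρ * R * (N : ℝ) ^ 5 * 36 := by ring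
        _ ≤ ρ * R * (N : ℝ) ^ 5 * N := mul_le_mul_of_nonneg_left hNbig hρR
        _ = _ := by ring
    obtain ⟨a1, a2⟩ := k2 hr0 m' n' hmn
    exact ⟨a1.trans hle, a2.trans hle⟩

end Pool.Agent.N365.SM
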